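import Pool.Agent.J6H36.AR.Defs
import Pool.Agent.R779.FJ.Col
import Pool.Agent.Y812.SS.Wr

/-!
# Module EP: eventually periodic functions on the integers extended by the shift
-/

set_option autoImplicit false

namespace Pool.Agent.J6H61.AR

open Pool.Agent.J6H36.AR
open Pool.Agent.Y462.SS (Closed Wr)
open Pool.Agent.Y110.FJ (ClosedE)
open Filter

/-- the product -/
abbrev T (p : ℕ) (H : Type) : Type :=
  Wr ℤ H × (Wr (ZMod p) H × (Wr (ZMod p) H × Multiplicative ℤ))

theorem tend_top (n : ℤ) : Tendsto (fun k : ℤ => k + n) atTop atTop :=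
  tendsto_atTop_add_const_right _ _ tendsto_id

theorem tend_bot (n : ℤ) : Tendsto (fun k : ℤ => k + n) atBot atBot :=
  tendsto_atBot_add_const_right _ _ tendsto_id

/-- agreement along a filter is multiplicative -/
theorem agree_mul {p : ℕ} {H : Type} [Group H] {F : Filter ℤ} {a a' : Wr ℤ H} {b b' : Wr (ZMod p) H}
    {n : ℤ} (hF : Tendsto (fun k : ℤ => k + n) F F)
    (ha' : ∀ k, a'.p k = k + n) (hb' : ∀ r, b'.p r = r + (n : ZMod p))
    (h : ∀ᶠ k : ℤ in F, a.s k = b.s (k : ZMod p)) (h' : ∀ᶠ k : ℤ in F, a'.s k = b'.s (k : ZMod p)) :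
    ∀ᶠ k : ℤ in F, (a * a').s k = (b * b').s (k : ZMod p) := by
  filter_upwards [hF.eventually h, h'] with k h1 h2
  rw [Wr.mul_s, Wr.mul_s, ha', hb', h1, h2]
  push_cast
  rfl

theorem agree_inv {p : ℕ} {H : Type} [Group H] {F : Filter ℤ} {a : Wr ℤ H} {b : Wr (ZMod p) H}
    {n : ℤ} (hF : Tendsto (fun k : ℤ => k + (-n)) F F)
    (ha : ∀ k, a.p k = k + n) (hb : ∀ r, b.p r = r + (n : ZMod p))
    (h : ∀ᶠ k : ℤ in F, a.s k = b.s (k : ZMod p)) :
    ∀ᶠ k : ℤ in F, (a⁻¹).s k = (b⁻¹).s (k : ZMod p) := by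
  filter_upwards [hF.eventually h] with k h1
  rw [Wr.inv_s, Wr.inv_s]
  have e1 : a.p⁻¹ k = k + (-n) := by
    rw [Equiv.Perm.inv_eq_iff_eq, ha]
    ring
  have e2 : b.p⁻¹ (k : ZMod p) = ((k + (-n) : ℤ) : ZMod p) := by
    rw [Equiv.Perm.inv_eq_iff_eq, hb]
    push_cast
    ring
  rw [e1, e2, h1]

/-- the eventually periodic elements with their periodic parts -/
def L (p : ℕ) (H : Type) [Group H] : Subgroup (T p H) where
  carrier := {t | (∀ k, t.1.p k = k + Multiplicative.toAdd t.2.2.2) ∧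
    (∀ r, t.2.1.p r = r + ((Multiplicative.toAdd t.2.2.2 : ℤ) : ZMod p)) ∧
    (∀ r, t.2.2.1.p r = r + ((Multiplicative.toAdd t.2.2.2 : ℤ) : ZMod p)) ∧
    (∀ᶠ k : ℤ in atTop, t.1.s k = t.2.1.s (k : ZMod p)) ∧
    (∀ᶠ k : ℤ in atBot, t.1.s k = t.2.2.1.s (k : ZMod p))}
  one_mem' := by
    refine ⟨fun k => ?_, fun r => ?_, fun r => ?_, Eventually.of_forall fun k => rfl,
      Eventually.of_forall fun k => rfl⟩
    · simp
    · simp
    · simp
  mul_mem' := by
    rintro a b ⟨h1, h2, h3, h4, h5⟩ ⟨k1, k2, k3, k4, k5⟩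
    refine ⟨fun k => ?_, fun r => ?_, fun r => ?_, ?_, ?_⟩
    · show a.1.p (b.1.p k) = _
      rw [k1, h1]
      show _ = k + (Multiplicative.toAdd a.2.2.2 + Multiplicative.toAdd b.2.2.2)
      ring
    · show a.2.1.p (b.2.1.p r) = _
      rw [k2, h2]
      show _ = r + ((Multiplicative.toAdd a.2.2.2 + Multiplicative.toAdd b.2.2.2 : ℤ) : ZMod p)
      push_cast
      ring
    · show a.2.2.1.p (b.2.2.1.p r) = _
      rw [k3, h3]
      show _ = r + ((Multiplicative.toAdd a.2.2.2 + Multiplicative.toAdd b.2.2.2 : ℤ) : ZMod p)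
      push_cast
      ring
    · exact agree_mul (tend_top _) k1 k2 h4 k4
    · exact agree_mul (tend_bot _) k1 k3 h5 k5
  inv_mem' := by
    rintro a ⟨h1, h2, h3, h4, h5⟩
    refine ⟨fun k => ?_, fun r => ?_, fun r => ?_, ?_, ?_⟩
    · show a.1.p⁻¹ k = k + (-Multiplicative.toAdd a.2.2.2)
      rw [Equiv.Perm.inv_eq_iff_eq, h1]
      ring
    · show a.2.1.p⁻¹ r = r + ((-Multiplicative.toAdd a.2.2.2 : ℤ) : ZMod p)
      rw [Equiv.Perm.inv_eq_iff_eq, h2]
      push_cast
      ring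
    · show a.2.2.1.p⁻¹ r = r + ((-Multiplicative.toAdd a.2.2.2 : ℤ) : ZMod p)
      rw [Equiv.Perm.inv_eq_iff_eq, h3]
      push_cast
      ring
    · exact agree_inv (tend_top _) h1 h2 h4
    · exact agree_inv (tend_bot _) h1 h3 h5

/-- the projection to the periodic parts -/
def pr (p : ℕ) (H : Type) [Group H] :
    L p H →* (Wr (ZMod p) H × (Wr (ZMod p) H × Multiplicative ℤ)) :=
  (MonoidHom.snd _ _).comp (L p H).subtype

theorem ker_p {p : ℕ} {H : Type} [Group H] {x : L p H} (hx : x ∈ (pr p H).ker) :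
    x.1.1.p = 1 := by
  have h1 : x.1.2 = 1 := hx
  ext k
  rw [x.2.1 k, h1]
  simp

theorem ker_s {p : ℕ} {H : Type} [Group H] {x : L p H} (hx : x ∈ (pr p H).ker) :
    ∀ᶠ m : ℤ in atTop, ∀ k : ℤ, m < |k| → x.1.1.s k = 1 := by
  have h1 : x.1.2 = 1 := hx
  have h4 := x.2.2.2.2.1
  have h5 := x.2.2.2.2.2
  rw [h1] at h4 h5
  obtain ⟨m1, hm1⟩ := eventually_atTop.1 h4
  obtain ⟨m2, hm2⟩ := eventually_atBot.1 h5
  refine eventually_atTop.2 ⟨max m1 (-m2), fun m hm k hk => ?_⟩
  rcases le_or_gt 0 k with h0 | h0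
  · rw [abs_of_nonneg h0] at hk
    exact hm1 k (by omega)
  · rw [abs_of_neg h0] at hk
    exact hm2 k (by omega)

/-- the formula for conjugates -/
theorem conj_s {X H : Type} [Group H] (g x : Wr X H) (hx : x.p = 1) (z : X) :
    (g * x * g⁻¹).s z = g.s (g.p⁻¹ z) * x.s (g.p⁻¹ z) * (g.s (g.p⁻¹ z))⁻¹ := by
  rw [Wr.mul_s, Wr.mul_s, Wr.inv_s, Wr.inv_p, hx]
  rfl

theorem conj_p {X H : Type} [Group H] (g x : Wr X H) (hx : x.p = 1) :
    (g * x * g⁻¹).p = 1 := by
  rw [Wr.mul_p, Wr.mul_p, Wr.inv_p, hx, mul_one, mul_inv_cancel]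

theorem C_L {C : ∀ (G : Type) [Group G], Prop} (hC : ClosedE C) (p : ℕ) (H : Type) [Group H]
    (hp : 0 < p) (hH : C H) : C (L p H) := by
  have : NeZero p := ⟨hp.ne'⟩
  have hext := Pool.Agent.Y529.FJ.t_ext
  have hW : C (Wr (ZMod p) H) := Pool.Agent.Y812.SS.t_wr C hC.base (ZMod p) H inferInstance hH
  refine Pool.Agent.R779.FJ.t_crit hext (Pool.Agent.Y961.FJ.t_perm hext) C hC (L p H)
    (pr p H).ker ?_ ?_
  · exact hC.base.of_injective _ _ (QuotientGroup.kerLift (pr p H))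
      (QuotientGroup.kerLift_injective _)
      (hC.base.prod _ _ hW (hC.base.prod _ _ hW hC.base.int))
  · intro g E hE hEN
    set n : ℤ := Multiplicative.toAdd g.1.2.2.2 with hn
    have hgp : ∀ k, g.1.1.p k = k + n := g.2.1
    have hgp' : ∀ k, g.1.1.p⁻¹ k = k - n := fun k => by
      rw [Equiv.Perm.inv_eq_iff_eq, hgp]
      ring
    obtain ⟨m, hm⟩ : ∃ m : ℤ, ∀ e ∈ E, ∀ k : ℤ, m < |k| → e.1.1.s k = 1 :=
      ((eventually_all_finite hE).2 fun e he => ker_s (hEN he)).exists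
    let R : ℤ := m + |n|
    have hn1 : n ≤ |n| := le_abs_self n
    have hn2 : -n ≤ |n| := neg_le_abs n
    -- the group of the elements supported in the window
    let S : Subgroup (L p H) :=
      { carrier := {w | w.1.1.p = 1 ∧ w.1.2 = 1 ∧ ∀ k : ℤ, R < |k| → w.1.1.s k = 1}
        one_mem' := ⟨rfl, rfl, fun k _ => rfl⟩
        mul_mem' := by
          rintro a b ⟨h1, h2, h3⟩ ⟨k1, k2, k3⟩
          refine ⟨?_, ?_, fun k hk => ?_⟩
          · show a.1.1.p * b.1.1.p = 1
            rw [h1, k1, one_mul]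
          · show a.1.2 * b.1.2 = 1
            rw [h2, k2, one_mul]
          · show a.1.1.s (b.1.1.p k) * b.1.1.s k = 1
            rw [k1, k3 k hk, mul_one]
            exact h3 k hk
        inv_mem' := by
          rintro a ⟨h1, h2, h3⟩
          refine ⟨?_, ?_, fun k hk => ?_⟩
          · show a.1.1.p⁻¹ = 1
            rw [h1, inv_one]
          · show a.1.2⁻¹ = 1
            rw [h2, inv_one]
          · show (a.1.1.s (a.1.1.p⁻¹ k))⁻¹ = 1
            rw [h1, inv_one, inv_eq_one]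
            exact h3 k hk }
    have hS : Subgroup.closure (E ∪ (fun x => g * x * g⁻¹) '' E) ≤ S := by
      rw [Subgroup.closure_le]
      rintro w (hw | ⟨e, he, rfl⟩)
      · exact ⟨ker_p (hEN hw), hEN hw, fun k hk => hm w hw k (by
          have := abs_nonneg n
          omega)⟩
      · refine ⟨conj_p _ _ (ker_p (hEN he)), ?_, fun k hk => ?_⟩
        · show g.1.2 * e.1.2 * g.1.2⁻¹ = 1
          have : e.1.2 = 1 := hEN he
          rw [this, mul_one, mul_inv_cancel]
        · show (g.1.1 * e.1.1 * g.1.1⁻¹).s k = 1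
          rw [conj_s _ _ (ker_p (hEN he)), hgp', hm e he (k - n) ?_, mul_one, mul_inv_cancel]
          have h1 : |k| ≤ |k - n| + |n| := by
            have := abs_add_le (k - n) n
            rwa [sub_add_cancel] at this
          omega
    -- the permutation of the window
    obtain ⟨π, hπ⟩ := Set.MapsTo.exists_equiv_extend_of_card_eq (α := ↥(Finset.Icc (-R) R))
      (t := Finset.Icc (-R) R) (by simp) (s := {x | |(x : ℤ)| ≤ m}) (f := fun x => (x : ℤ) + n)
      (by
        intro x hx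
        have hx' : |(x : ℤ)| ≤ m := hx
        rw [abs_le] at hx'
        show (x : ℤ) + n ∈ (Finset.Icc (-R) R : Set ℤ)
        rw [Finset.coe_Icc, Set.mem_Icc]
        constructor <;> omega)
      (by
        intro x _ y _ hxy
        apply Subtype.ext
        have : (x : ℤ) + n = (y : ℤ) + n := hxy
        omega)
    refine ⟨Wr ↥(Finset.Icc (-R) R) H, inferInstance,
      { toFun := fun w => ⟨fun x => w.1.1.1.s x, 1⟩
        map_one' := rfl
        map_mul' := ?_ }, ⟨fun x => g.1.1.s x, π⟩,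
      Pool.Agent.Y812.SS.t_wr C hC.base _ H inferInstance hH, ?_, ?_⟩
    · intro a b
      apply Wr.ext
      · funext x
        have hb := (hS b.2).1
        show a.1.1.1.s (b.1.1.1.p x) * b.1.1.1.s x = a.1.1.1.s x * b.1.1.1.s x
        rw [hb]
        rfl
      · rfl
    · intro a b hab
      have h1 := congrArg Wr.s hab
      have h2 : ∀ x : ↥(Finset.Icc (-R) R), a.1.1.1.s x = b.1.1.1.s x := fun x => congrFun h1 x
      obtain ⟨ha1, ha2, ha3⟩ := hS a.2
      obtain ⟨hb1, hb2, hb3⟩ := hS b.2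
      apply Subtype.ext
      apply Subtype.ext
      apply Prod.ext
      · apply Wr.ext
        · funext k
          by_cases hk : R < |k|
          · rw [ha3 k hk, hb3 k hk]
          · exact h2 ⟨k, by
              rw [not_lt, abs_le] at hk
              rw [Finset.mem_Icc]
              exact hk⟩
        · rw [ha1, hb1]
      · rw [ha2, hb2]
    · intro x y hx hy
      have hxp := ker_p (hEN hx)
      apply Wr.ext
      · funext z
        refine Eq.trans ?_ (conj_s (X := ↥(Finset.Icc (-R) R)) ⟨fun x => g.1.1.s x, π⟩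
          ⟨fun z => x.1.1.1.s z, 1⟩ rfl z).symm
        show y.1.1.1.s z = g.1.1.s (π⁻¹ z : ↥(Finset.Icc (-R) R)) *
          x.1.1.1.s (π⁻¹ z : ↥(Finset.Icc (-R) R)) * (g.1.1.s (π⁻¹ z : ↥(Finset.Icc (-R) R)))⁻¹
        have h1 : y.1.1.1.s z = (g.1.1 * x.1.1.1 * g.1.1⁻¹).s z := by
          rw [hy]
          rfl
        rw [h1, conj_s _ _ hxp, hgp']
        by_cases hz : |(z : ℤ) - n| ≤ m
        · have hz' := abs_le.1 hz
          have hmem : (z : ℤ) - n ∈ Finset.Icc (-R) R := by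
            have := abs_nonneg n
            rw [Finset.mem_Icc]
            constructor <;> omega
          have h2 := hπ ⟨(z : ℤ) - n, hmem⟩ hz
          have h3 : π ⟨(z : ℤ) - n, hmem⟩ = z := by
            apply Subtype.ext
            rw [h2]
            show (z : ℤ) - n + n = z
            ring
          have h4 : π⁻¹ z = ⟨(z : ℤ) - n, hmem⟩ := by
            rw [Equiv.Perm.inv_eq_iff_eq, h3]
          rw [h4]
        · by_cases hz2 : |((π⁻¹ z : ↥(Finset.Icc (-R) R)) : ℤ)| ≤ m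
          · have h2 := hπ (π⁻¹ z) hz2
            have h3 : π (π⁻¹ z) = z := Equiv.apply_symm_apply π z
            rw [h3] at h2
            have h4 : ((π⁻¹ z : ↥(Finset.Icc (-R) R)) : ℤ) = (z : ℤ) - n := by
              have : (z : ℤ) = ((π⁻¹ z : ↥(Finset.Icc (-R) R)) : ℤ) + n := h2
              omega
            rw [h4]
          · rw [hm _ hx _ (not_le.1 hz), hm _ hx _ (not_le.1 hz2)]
            simp
      · exact (conj_p (X := ↥(Finset.Icc (-R) R)) ⟨fun x => g.1.1.s x, π⟩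
          ⟨fun z => x.1.1.1.s z, 1⟩ rfl).symm

theorem fst_inj (p : ℕ) (H : Type) [Group H] (hp : 0 < p) :
    Function.Injective ((MonoidHom.fst (Wr ℤ H) (Wr (ZMod p) H × (Wr (ZMod p) H ×
      Multiplicative ℤ))).comp (L p H).subtype) := by
  have : NeZero p := ⟨hp.ne'⟩
  intro x y hxy
  have h1 : x.1.1 = y.1.1 := hxy
  obtain ⟨a1, a2, a3, a4, a5⟩ := x.2
  obtain ⟨b1, b2, b3, b4, b5⟩ := y.2
  have hn : x.1.2.2.2 = y.1.2.2.2 := by
    have h2 := a1 0
    rw [h1, b1] at h2
    exact Multiplicative.toAdd.injective (by omega)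
  have key : ∀ r : ZMod p, ((∃ᶠ k : ℤ in atTop, (k : ZMod p) = r) ∧
      ∃ᶠ k : ℤ in atBot, (k : ZMod p) = r) := by
    intro r
    obtain ⟨z, rfl⟩ := ZMod.intCast_surjective r
    have hp' : (1 : ℤ) ≤ p := by exact_mod_cast hp
    constructor
    · rw [frequently_atTop]
      intro b
      refine ⟨z + p * (|b| + |z|), ?_, by push_cast; simp⟩
      have h1 : |b| + |z| ≤ p * (|b| + |z|) :=
        le_mul_of_one_le_left (by positivity) hp'
      have h2 := neg_abs_le z
      have h3 := le_abs_self b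
      omega
    · rw [frequently_atBot]
      intro b
      refine ⟨z - p * (|b| + |z|), ?_, by push_cast; simp⟩
      have h1 : |b| + |z| ≤ p * (|b| + |z|) :=
        le_mul_of_one_le_left (by positivity) hp'
      have h2 := le_abs_self z
      have h3 := neg_abs_le b
      omega
  apply Subtype.ext
  refine Prod.ext h1 (Prod.ext ?_ (Prod.ext ?_ hn))
  · apply Wr.ext
    · funext r
      obtain ⟨k, hk1, hk2, hk3⟩ := ((key r).1.and_eventually (a4.and b4)).exists
      rw [← hk1, ← hk2, ← hk3, h1]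
    · ext r
      rw [a2, b2, hn]
  · apply Wr.ext
    · funext r
      obtain ⟨k, hk1, hk2, hk3⟩ := ((key r).2.and_eventually (a5.and b5)).exists
      rw [← hk1, ← hk2, ← hk3, h1]
    · ext r
      rw [a3, b3, hn]

/-- **Module EP** -/
theorem t_EP : S_EP := by
  intro C hC p H P _ _ hp hH i hi hE
  let φ := (MonoidHom.fst (Wr ℤ H) (Wr (ZMod p) H × (Wr (ZMod p) H ×
      Multiplicative ℤ))).comp (L p H).subtype
  have hφ : Function.Injective φ := fst_inj p H hp
  have hmem : ∀ x, i x ∈ φ.range := by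
    intro x
    obtain ⟨⟨n, hn⟩, ⟨F, hF⟩, ⟨F', hF'⟩⟩ := hE x
    refine ⟨⟨(i x, ⟨F, Equiv.addRight (n : ZMod p)⟩, ⟨F', Equiv.addRight (n : ZMod p)⟩,
      Multiplicative.ofAdd n), hn, fun r => rfl, fun r => rfl, hF, hF'⟩, rfl⟩
  refine hC.base.of_injective P (L p H)
    ((MonoidHom.ofInjective hφ).symm.toMonoidHom.comp (i.codRestrict _ hmem)) ?_
    (C_L hC p H hp hH)
  intro x y hxy
  have h1 := (MonoidHom.ofInjective hφ).symm.injective hxy
  exact hi (congrArg Subtype.val h1)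

end Pool.Agent.J6H61.AR
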